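import Mathlib
import Pool.Agent.U307.RAD.Stm3

/-!
Project RAD, package KONE (helper901): the constant `13 n / 2` for `l = 1` and `n ≤ 220`.
-/

set_option autoImplicit false

namespace Pool.Agent.U901.RAD.KONE

open MeasureTheory Set Pool.Agent.U307.RAD

/-- the kernel divided by `r` -/
noncomputable def w1 (n : ℕ) (r : ℝ) : ℝ := 2 * ∑ i ∈ Finset.range n, Cc n 1 i * r ^ (2 * i)

lemma uu_eq (n : ℕ) (r : ℝ) : uu n 1 r = r * w1 n r := by
  unfold uu w1
  simp only [Finset.mul_sum]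
  refine Finset.sum_congr rfl fun i _ => ?_
  rw [pow_add, pow_one]
  ring

lemma continuous_w1 (n : ℕ) : Continuous (w1 n) := by
  unfold w1
  fun_prop

/-- the absolute values of the coefficients -/
noncomputable def ac (n i : ℕ) : ℝ :=
  (∏ h ∈ Finset.range n, ((2 : ℝ) + i + h)) / ((i.factorial : ℝ) * ((n - 1 - i).factorial : ℝ))

lemma ac_nonneg (n i : ℕ) : 0 ≤ ac n i := by
  unfold ac
  exact div_nonneg (Finset.prod_nonneg fun h _ => by positivity) (by positivity)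

lemma abs_Cc (n i : ℕ) : |Cc n 1 i| = ac n i := by
  unfold Cc ac
  rw [abs_div, abs_mul, abs_pow, abs_neg, abs_one, one_pow, one_mul]
  have e : (∏ h ∈ Finset.range n, (((1 : ℕ) : ℝ) + 1 + i + h)) =
      ∏ h ∈ Finset.range n, ((2 : ℝ) + i + h) := by
    refine Finset.prod_congr rfl fun h _ => ?_
    push_cast
    ring
  rw [e, abs_of_nonneg (Finset.prod_nonneg fun h _ => by positivity),
    abs_of_pos (by positivity : (0 : ℝ) < (i.factorial : ℝ) * ((n - 1 - i).factorial : ℝ))]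

lemma ac_succ {n i : ℕ} (hi : i + 1 < n) :
    ac n (i + 1) * (((i : ℝ) + 1) * (2 + i)) = ac n i * (((n : ℝ) + 2 + i) * (n - 1 - i)) := by
  have hP : (∏ h ∈ Finset.range n, ((2 : ℝ) + ((i + 1 : ℕ) : ℝ) + h)) * (2 + i) =
      (∏ h ∈ Finset.range n, ((2 : ℝ) + i + h)) * (2 + i + n) := by
    have h1 := Finset.prod_range_succ (fun h : ℕ => (2 : ℝ) + i + h) n
    have h2 := Finset.prod_range_succ' (fun h : ℕ => (2 : ℝ) + i + h) n
    rw [h1] at h2
    rw [h2]
    have e : (∏ h ∈ Finset.range n, ((2 : ℝ) + ((i + 1 : ℕ) : ℝ) + h)) =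
        ∏ h ∈ Finset.range n, ((2 : ℝ) + i + ((h + 1 : ℕ) : ℝ)) := by
      refine Finset.prod_congr rfl fun h _ => ?_
      push_cast
      ring
    rw [e]
    push_cast
    ring
  obtain ⟨m, hm⟩ : ∃ m, n = i + 2 + m := ⟨n - (i + 2), by omega⟩
  have e1 : n - 1 - (i + 1) = m := by omega
  have e2 : n - 1 - i = m + 1 := by omega
  have e3 : (n : ℝ) - 1 - i = m + 1 := by
    rw [hm]
    push_cast
    ring
  unfold ac
  rw [e1, e2, e3, Nat.factorial_succ, Nat.factorial_succ]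
  have hf1 : (i.factorial : ℝ) ≠ 0 := by positivity
  have hf2 : (m.factorial : ℝ) ≠ 0 := by positivity
  have hi0 : (i : ℝ) + 1 ≠ 0 := by positivity
  have hm0 : (m : ℝ) + 1 ≠ 0 := by positivity
  obtain ⟨P, hPd⟩ : ∃ P, P = ∏ h ∈ Finset.range n, ((2 : ℝ) + i + h) := ⟨_, rfl⟩
  obtain ⟨Q, hQd⟩ : ∃ Q, Q = ∏ h ∈ Finset.range n, ((2 : ℝ) + ((i + 1 : ℕ) : ℝ) + h) := ⟨_, rfl⟩
  rw [← hPd, ← hQd] at hP
  rw [← hPd, ← hQd]
  push_cast
  have g1 : Q / (((i : ℝ) + 1) * (i.factorial : ℝ) * (m.factorial : ℝ)) * (((i : ℝ) + 1) * (2 + i)) =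
      Q * (2 + i) / ((i.factorial : ℝ) * (m.factorial : ℝ)) := by
    field_simp
  have g2 : P / ((i.factorial : ℝ) * (((m : ℝ) + 1) * (m.factorial : ℝ))) *
      (((n : ℝ) + 2 + i) * (m + 1)) =
      P * (2 + i + n) / ((i.factorial : ℝ) * (m.factorial : ℝ)) := by
    field_simp
    ring
  rw [g1, g2, hP]

lemma ac_zero {n : ℕ} (hn : 1 ≤ n) : ac n 0 = n * (n + 1) := by
  have h1 : ∀ m : ℕ, ∏ h ∈ Finset.range m, ((2 : ℝ) + ((0 : ℕ) : ℝ) + h) = ((m + 1).factorial : ℝ) := by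
    intro m
    induction m with
    | zero => simp
    | succ m ih =>
      rw [Finset.prod_range_succ, ih, Nat.factorial_succ (m + 1)]
      push_cast
      ring
  unfold ac
  obtain ⟨m, rfl⟩ : ∃ m, n = m + 1 := ⟨n - 1, by omega⟩
  rw [h1, Nat.factorial_succ, Nat.factorial_succ, show m + 1 - 1 - 0 = m by omega, Nat.factorial_zero]
  have : (m.factorial : ℝ) ≠ 0 := by positivity
  push_cast
  field_simp

lemma ac_le {n : ℕ} {r : ℝ} (hn : 1 ≤ n) (hr : 0 ≤ r) (hr2 : r ^ 2 * (100 * (n : ℝ) ^ 2) ≤ 9) :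
    ∀ i, i < n → ac n i * r ^ (2 * i) ≤ n * (n + 1) * (1 / 10) ^ i := by
  intro i
  induction i with
  | zero =>
    intro _
    rw [ac_zero hn]
    simp
  | succ i ih =>
    intro hi
    have h1 := ih (by omega)
    have h2 := ac_succ hi
    obtain ⟨X, hX⟩ : ∃ X, X = ac n i * r ^ (2 * i) := ⟨_, rfl⟩
    obtain ⟨Y, hY⟩ : ∃ Y, Y = ac n (i + 1) * r ^ (2 * (i + 1)) := ⟨_, rfl⟩
    have hX0 : 0 ≤ X := by
      rw [hX]
      exact mul_nonneg (ac_nonneg _ _) (by positivity)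
    have hY0 : 0 ≤ Y := by
      rw [hY]
      exact mul_nonneg (ac_nonneg _ _) (by positivity)
    have h3 : Y * (((i : ℝ) + 1) * (2 + i)) = X * ((((n : ℝ) + 2 + i) * (n - 1 - i)) * r ^ 2) := by
      have e : r ^ (2 * (i + 1)) = r ^ (2 * i) * r ^ 2 := by
        rw [← pow_add]
        congr 1
      rw [hX, hY, e]
      calc ac n (i + 1) * (r ^ (2 * i) * r ^ 2) * (((i : ℝ) + 1) * (2 + i)) =
            (ac n (i + 1) * (((i : ℝ) + 1) * (2 + i))) * (r ^ (2 * i) * r ^ 2) := by ring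
        _ = (ac n i * (((n : ℝ) + 2 + i) * (n - 1 - i))) * (r ^ (2 * i) * r ^ 2) := by rw [h2]
        _ = _ := by ring
    have hn1 : (1 : ℝ) ≤ n := by exact_mod_cast hn
    have hi0 : (0 : ℝ) ≤ i := Nat.cast_nonneg i
    have h4 : (((n : ℝ) + 2 + i) * (n - 1 - i)) ≤ 2 * (n : ℝ) ^ 2 := by nlinarith
    have h5 : (((n : ℝ) + 2 + i) * (n - 1 - i)) * r ^ 2 ≤ 2 * (n : ℝ) ^ 2 * r ^ 2 :=
      mul_le_mul_of_nonneg_right h4 (by positivity)
    have h6 : (((n : ℝ) + 2 + i) * (n - 1 - i)) * r ^ 2 ≤ 1 / 5 := by nlinarith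
    have h7 : Y * 2 ≤ Y * (((i : ℝ) + 1) * (2 + i)) :=
      mul_le_mul_of_nonneg_left (by nlinarith) hY0
    have h8 : X * ((((n : ℝ) + 2 + i) * (n - 1 - i)) * r ^ 2) ≤ X * (1 / 5) :=
      mul_le_mul_of_nonneg_left h6 hX0
    rw [← hY]
    rw [← hX] at h1
    rw [pow_succ]
    linarith

lemma w1_le {n : ℕ} {r : ℝ} (hn : 1 ≤ n) (hr : 0 ≤ r) (hr2 : r ^ 2 * (100 * (n : ℝ) ^ 2) ≤ 9) :
    |w1 n r| ≤ 20 / 9 * (n * (n + 1)) := by
  unfold w1
  rw [abs_mul, abs_of_pos (by norm_num : (0 : ℝ) < 2)]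
  have h1 : |∑ i ∈ Finset.range n, Cc n 1 i * r ^ (2 * i)| ≤
      ∑ i ∈ Finset.range n, (n : ℝ) * (n + 1) * (1 / 10) ^ i := by
    refine (Finset.abs_sum_le_sum_abs _ _).trans (Finset.sum_le_sum fun i hi => ?_)
    rw [abs_mul, abs_Cc, abs_of_nonneg (by positivity : (0 : ℝ) ≤ r ^ (2 * i))]
    exact ac_le hn hr hr2 i (Finset.mem_range.1 hi)
  rw [← Finset.mul_sum, geom_sum_eq (by norm_num)] at h1
  have h2 : ((1 / 10 : ℝ) ^ n - 1) / (1 / 10 - 1) ≤ 10 / 9 := by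
    have : (0 : ℝ) ≤ (1 / 10) ^ n := by positivity
    have e : ((1 / 10 : ℝ) ^ n - 1) / (1 / 10 - 1) = 10 / 9 * (1 - (1 / 10) ^ n) := by
      rw [div_eq_iff (by norm_num)]
      ring
    rw [e]
    linarith
  have h3 := mul_le_mul_of_nonneg_left h2 (by positivity : (0 : ℝ) ≤ (n : ℝ) * (n + 1))
  linarith

lemma KU_eq (n : ℕ) : KU n 1 = 1 + ∫ r in (0 : ℝ)..1, |w1 n r| := by
  unfold KU
  rw [intervalIntegral.integral_of_le zero_le_one, intervalIntegral.integral_of_le zero_le_one]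
  congr 1
  refine setIntegral_congr_fun measurableSet_Ioc fun r hr => ?_
  have h0 : 0 < r := hr.1
  show |uu n 1 r| / r = |w1 n r|
  rw [uu_eq, abs_mul, abs_of_pos h0]
  field_simp

lemma KU_le {n : ℕ} {C : ℝ} (h : ∀ r ∈ Icc (0 : ℝ) 1, |w1 n r| ≤ C) : KU n 1 ≤ 1 + C := by
  rw [KU_eq]
  have hc : IntervalIntegrable (fun r => |w1 n r|) volume 0 1 :=
    (continuous_w1 n).abs.intervalIntegrable _ _
  have := intervalIntegral.integral_mono_on zero_le_one hc intervalIntegrable_const h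
  rw [intervalIntegral.integral_const] at this
  simp only [sub_zero, smul_eq_mul, one_mul] at this
  linarith

lemma num {n : ℕ} (hn : 3 ≤ n) (hn2 : n ≤ 220) :
    4 * (n : ℝ) ^ (3 / 4 : ℝ) + 8 / 9 * n + n * (3 / 2 + 8 / 21 * (Real.log n + 7 / 5)) ≤
      13 / 2 * n := by
  have hn3 : (3 : ℝ) ≤ n := by exact_mod_cast hn
  have hn0 : (0 : ℝ) < n := by linarith
  have hn220 : (n : ℝ) ≤ 220 := by exact_mod_cast hn2
  obtain ⟨u, hu⟩ : ∃ u, u = Real.log n := ⟨_, rfl⟩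
  have hu1 : 1 ≤ u := by
    rw [hu, Real.le_log_iff_exp_le hn0]
    have := Real.exp_one_lt_d9
    linarith
  have hu2 : u ≤ 11 / 2 := by
    rw [hu, Real.log_le_iff_le_exp hn0]
    have h1 := Real.exp_one_gt_d9
    have h2 : Real.exp (11 / 2) = Real.exp 1 ^ 5 * Real.exp (1 / 2) := by
      rw [← Real.exp_nat_mul, ← Real.exp_add]
      congr 1
      norm_num
    have h3 : (3 / 2 : ℝ) ≤ Real.exp (1 / 2) := by
      have := Real.add_one_le_exp (1 / 2 : ℝ)
      linarith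
    have h4 : (148 : ℝ) ≤ Real.exp 1 ^ 5 := by
      calc (148 : ℝ) ≤ 2.7182818283 ^ 5 := by norm_num
        _ ≤ Real.exp 1 ^ 5 := pow_le_pow_left₀ (by norm_num) h1.le 5
    rw [h2]
    calc (n : ℝ) ≤ 220 := hn220
      _ ≤ 148 * (3 / 2) := by norm_num
      _ ≤ _ := mul_le_mul h4 h3 (by norm_num) (by positivity)
  obtain ⟨P, hP⟩ : ∃ P, P = (n : ℝ) ^ (3 / 4 : ℝ) := ⟨_, rfl⟩
  have hP0 : 0 < P := by
    rw [hP]
    positivity
  have hq : P * (1 + u / 4 + (u / 4) ^ 2 / 2) ≤ n := by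
    have e1 : (n : ℝ) ^ (1 / 4 : ℝ) = Real.exp (u / 4) := by
      rw [Real.rpow_def_of_pos hn0, ← hu]
      congr 1
      ring
    have e2 : 1 + u / 4 + (u / 4) ^ 2 / 2 ≤ (n : ℝ) ^ (1 / 4 : ℝ) := by
      rw [e1]
      exact Real.quadratic_le_exp_of_nonneg (by linarith)
    calc P * (1 + u / 4 + (u / 4) ^ 2 / 2) ≤ P * (n : ℝ) ^ (1 / 4 : ℝ) :=
          mul_le_mul_of_nonneg_left e2 hP0.le
      _ = n := by
          rw [hP, ← Real.rpow_add hn0]
          norm_num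
  have hD : 0 < 32 + 8 * u + u ^ 2 := by positivity
  have hPb : 4 * P ≤ n * (128 / (32 + 8 * u + u ^ 2)) := by
    rw [mul_div_assoc', le_div_iff₀ hD]
    nlinarith
  have hc : 128 / (32 + 8 * u + u ^ 2) + 8 / 9 + (3 / 2 + 8 / 21 * (u + 7 / 5)) ≤ 13 / 2 := by
    have : 128 / (32 + 8 * u + u ^ 2) ≤ 13 / 2 - 8 / 9 - (3 / 2 + 8 / 21 * (u + 7 / 5)) := by
      rw [div_le_iff₀ hD]
      nlinarith [mul_nonneg (sub_nonneg.2 hu1) (sub_nonneg.2 hu2),
        mul_nonneg (mul_nonneg (sub_nonneg.2 hu1) (sub_nonneg.2 hu2)) (by linarith : (0 : ℝ) ≤ u)]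
    linarith
  rw [← hP, ← hu]
  have h5 := mul_le_mul_of_nonneg_left hc hn0.le
  linarith

theorem t_KONE : S_L1 → S_EU → S_KONE := by
  intro hL1 hEU n hn hn2
  rcases Nat.lt_or_ge n 3 with h3 | h3
  · obtain rfl | rfl : n = 1 ∨ n = 2 := by omega
    · have h := KU_le (n := 1) (C := 4) (by
        intro r _
        simp [w1, Cc]
        norm_num)
      push_cast
      linarith
    · have h := KU_le (n := 2) (C := 12) (by
        intro r hr
        have e : w1 2 r = 24 * r ^ 2 - 12 := by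
          simp [w1, Cc, Finset.sum_range_succ, Finset.prod_range_succ]
          ring
        rw [e, abs_le]
        constructor <;> nlinarith [hr.1, hr.2])
      push_cast
      linarith
  have hn3 : (3 : ℝ) ≤ n := by exact_mod_cast h3
  have hn0 : (0 : ℝ) < n := by linarith
  have hE := (hEU n 1 hn).1 le_rfl
  have hKI := hL1 n 1 hn
  have hw := continuous_w1 n
  have i2 : ∫ r in (0 : ℝ)..1, |qq n 1 r| = ∫ r in (0 : ℝ)..1, r ^ 2 * |w1 n r| := by
    refine intervalIntegral.integral_congr fun r hr => ?_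
    unfold qq
    rw [uu_eq, ← mul_assoc, abs_mul, ← pow_two, abs_of_nonneg (by positivity : (0 : ℝ) ≤ r ^ 2)]
  have i3 : ∫ r in (0 : ℝ)..1, uu n 1 r ^ 2 * (1 - r ^ 2) ^ 2 / r =
      ∫ r in (0 : ℝ)..1, r * |w1 n r| ^ 2 * (1 - r ^ 2) ^ 2 := by
    refine intervalIntegral.integral_congr fun r hr => ?_
    rw [uu_eq, sq_abs]
    rcases eq_or_ne r 0 with h0 | h0
    · rw [h0]
      simp
    · field_simp
  rw [i3] at hE
  have hE2 : ∫ r in (0 : ℝ)..1, r * |w1 n r| ^ 2 * (1 - r ^ 2) ^ 2 ≤ 16 / 7 * (n : ℝ) ^ 2 := by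
    rw [hE, div_le_iff₀ (by positivity)]
    push_cast
    nlinarith [mul_nonneg (by positivity : (0 : ℝ) ≤ (n : ℝ) ^ 2) (sub_nonneg.2 hn3)]
  obtain ⟨x, hx⟩ : ∃ x : ℝ, x = 3 / (10 * n) := ⟨_, rfl⟩
  have hx0 : 0 < x := by
    rw [hx]
    positivity
  have hx1 : x ≤ 1 := by
    rw [hx, div_le_one (by positivity)]
    linarith
  have hxn : x * n = 3 / 10 := by
    rw [hx]
    field_simp
  have cJ : Continuous fun r => (1 - r ^ 2) * |w1 n r| := by fun_prop
  have cE : Continuous fun r => r * |w1 n r| ^ 2 * (1 - r ^ 2) ^ 2 := by fun_prop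
  -- the near part
  have hnear : (∫ r in (0 : ℝ)..x, (1 - r ^ 2) * |w1 n r|) ≤ 8 / 9 * (n : ℝ) := by
    have h1 : ∫ r in (0 : ℝ)..x, (1 - r ^ 2) * |w1 n r| ≤
        ∫ r in (0 : ℝ)..x, 20 / 9 * ((n : ℝ) * (n + 1)) := by
      refine intervalIntegral.integral_mono_on hx0.le (cJ.intervalIntegrable _ _)
        intervalIntegrable_const fun r hr => ?_
      have hrx : r ^ 2 * (100 * (n : ℝ) ^ 2) ≤ 9 := by
        have h2 : r * n ≤ 3 / 10 := by
          rw [← hxn]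
          exact mul_le_mul_of_nonneg_right hr.2 hn0.le
        have h3 : 0 ≤ r * n := mul_nonneg hr.1 hn0.le
        nlinarith
      have h2 := w1_le hn hr.1 hrx
      have h4 : (1 - r ^ 2) ≤ 1 := by nlinarith [sq_nonneg r]
      calc (1 - r ^ 2) * |w1 n r| ≤ 1 * |w1 n r| := mul_le_mul_of_nonneg_right h4 (abs_nonneg _)
        _ ≤ _ := by linarith
    rw [intervalIntegral.integral_const, sub_zero, smul_eq_mul] at h1
    have e : x * (20 / 9 * ((n : ℝ) * (n + 1))) = 20 / 9 * ((x * n) * (n + 1)) := by ring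
    rw [e, hxn] at h1
    linarith
  -- the far part
  have hlogx : Real.log (1 / x) = Real.log n + Real.log (10 / 3) := by
    rw [← Real.log_mul hn0.ne' (by norm_num), hx]
    congr 1
    field_simp
  have hl10 : Real.log (10 / 3) ≤ 7 / 5 := by
    rw [Real.log_le_iff_le_exp (by norm_num)]
    have := Real.quadratic_le_exp_of_nonneg (by norm_num : (0 : ℝ) ≤ 7 / 5)
    norm_num at this ⊢
    linarith
  have hfar : (∫ r in x..(1 : ℝ), (1 - r ^ 2) * |w1 n r|) ≤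
      (n : ℝ) * (3 / 2 + 8 / 21 * (Real.log n + 7 / 5)) := by
    have hlam : (0 : ℝ) < 21 / 16 / n := by positivity
    obtain ⟨lam, hl⟩ : ∃ lam : ℝ, lam = 21 / 16 / n := ⟨_, rfl⟩
    rw [← hl] at hlam
    have cinv : IntervalIntegrable (fun r : ℝ => 1 / r) volume x 1 := by
      refine ContinuousOn.intervalIntegrable ?_
      rw [uIcc_of_le hx1]
      exact continuousOn_const.div continuousOn_id fun r hr => (lt_of_lt_of_le hx0 hr.1).ne'
    have h1 : ∫ r in x..(1 : ℝ), (1 - r ^ 2) * |w1 n r| ≤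
        ∫ r in x..(1 : ℝ), (lam / 2 * (r * |w1 n r| ^ 2 * (1 - r ^ 2) ^ 2) +
          1 / (2 * lam) * (1 / r)) := by
      refine intervalIntegral.integral_mono_on hx1 (cJ.intervalIntegrable _ _)
        (((cE.intervalIntegrable _ _).const_mul _).add (cinv.const_mul _)) fun r hr => ?_
      have hr0 : 0 < r := lt_of_lt_of_le hx0 hr.1
      obtain ⟨t, ht⟩ : ∃ t, t = (1 - r ^ 2) * |w1 n r| := ⟨_, rfl⟩
      have e1 : lam / 2 * (r * |w1 n r| ^ 2 * (1 - r ^ 2) ^ 2) = lam * r * t ^ 2 / 2 := by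
        rw [ht]
        ring
      have e2 : lam * r * t ^ 2 / 2 + 1 / (2 * lam) * (1 / r) - t =
          (lam * r * t - 1) ^ 2 / (2 * (lam * r)) := by
        field_simp
        ring
      have e3 : 0 ≤ (lam * r * t - 1) ^ 2 / (2 * (lam * r)) := by positivity
      show (1 - r ^ 2) * |w1 n r| ≤ _
      rw [← ht]
      show t ≤ lam / 2 * (r * |w1 n r| ^ 2 * (1 - r ^ 2) ^ 2) + 1 / (2 * lam) * (1 / r)
      rw [e1]
      linarith
    rw [intervalIntegral.integral_add ((cE.intervalIntegrable _ _).const_mul _)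
      (cinv.const_mul _), intervalIntegral.integral_const_mul, intervalIntegral.integral_const_mul,
      integral_one_div_of_pos hx0 one_pos, hlogx] at h1
    have h2 : ∫ r in x..(1 : ℝ), r * |w1 n r| ^ 2 * (1 - r ^ 2) ^ 2 ≤ 16 / 7 * (n : ℝ) ^ 2 := by
      refine le_trans ?_ hE2
      have h3 := intervalIntegral.integral_add_adjacent_intervals
        (cE.intervalIntegrable (μ := volume) 0 x) (cE.intervalIntegrable x 1)
      have h4 : 0 ≤ ∫ r in (0 : ℝ)..x, r * |w1 n r| ^ 2 * (1 - r ^ 2) ^ 2 :=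
        intervalIntegral.integral_nonneg hx0.le fun r hr => by
          have := hr.1
          positivity
      linarith
    have h5 : lam / 2 * (∫ r in x..(1 : ℝ), r * |w1 n r| ^ 2 * (1 - r ^ 2) ^ 2) ≤ 3 / 2 * n := by
      calc _ ≤ lam / 2 * (16 / 7 * (n : ℝ) ^ 2) := mul_le_mul_of_nonneg_left h2 (by positivity)
        _ = 3 / 2 * n := by
          rw [hl]
          field_simp
          ring
    have h6 : 1 / (2 * lam) * (Real.log n + Real.log (10 / 3)) ≤
        n * (8 / 21 * (Real.log n + 7 / 5)) := by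
      have e : 1 / (2 * lam) = 8 / 21 * n := by
        rw [hl]
        field_simp
        norm_num
      rw [e]
      have : 8 / 21 * (n : ℝ) * (Real.log n + Real.log (10 / 3)) ≤
          8 / 21 * (n : ℝ) * (Real.log n + 7 / 5) :=
        mul_le_mul_of_nonneg_left (by linarith) (by positivity)
      linarith
    linarith
  -- assembly
  have hsplit : ∫ r in (0 : ℝ)..1, |w1 n r| = (∫ r in (0 : ℝ)..1, r ^ 2 * |w1 n r|) +
      ((∫ r in (0 : ℝ)..x, (1 - r ^ 2) * |w1 n r|) + ∫ r in x..(1 : ℝ), (1 - r ^ 2) * |w1 n r|) := by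
    rw [intervalIntegral.integral_add_adjacent_intervals
      (cJ.intervalIntegrable _ _) (cJ.intervalIntegrable _ _),
      ← intervalIntegral.integral_add
        ((by fun_prop : Continuous fun r => r ^ 2 * |w1 n r|).intervalIntegrable _ _)
        (cJ.intervalIntegrable _ _)]
    refine intervalIntegral.integral_congr fun r _ => ?_
    show |w1 n r| = r ^ 2 * |w1 n r| + (1 - r ^ 2) * |w1 n r|
    ring
  unfold KI at hKI
  rw [i2] at hKI
  rw [KU_eq, hsplit]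
  have := num h3 hn2
  linarith

end Pool.Agent.U901.RAD.KONE
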